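import Mathlib

/-!
# Forward compositions of inner functions
-/

set_option autoImplicit false

open Filter Topology Metric MeasureTheory

namespace Pool.Agent.X183.Inner

/-- The point `e^{2πit}` of the unit circle. -/
noncomputable def pt (t : ℝ) : ℂ := Complex.exp (2 * Real.pi * t * Complex.I)

/-- `w` is the radial limit of `f` at the point `ζ` of the unit circle. -/
def HasRadialLimit (f : ℂ → ℂ) (ζ w : ℂ) : Prop :=
  Tendsto (fun r : ℝ => f (r * ζ)) (𝓝[<] 1) (𝓝 w)

/-- Inner functions: holomorphic self-maps of the open unit disc whose radial limits exist and have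
modulus one at almost every point of the unit circle. -/
def IsInner (f : ℂ → ℂ) : Prop :=
  DifferentiableOn ℂ f (ball 0 1) ∧ Set.MapsTo f (ball 0 1) (ball 0 1) ∧
    ∀ᵐ t : ℝ, ∃ w : ℂ, HasRadialLimit f (pt t) w ∧ ‖w‖ = 1

/-- The forward composition `F_n = f_n ∘ ⋯ ∘ f_1` (with `f_{n+1}` written `f n`, and `F_0 = id`). -/
def forwardComp (f : ℕ → ℂ → ℂ) : ℕ → ℂ → ℂ
  | 0 => id
  | n + 1 => f n ∘ forwardComp f n

/-- The hyperbolic distance `log ((1+ρ)/(1-ρ))`, `ρ = |z-w|/|1-w̄z|`, of the unit disc. -/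
noncomputable def hypDist (z w : ℂ) : ℝ :=
  Real.log ((1 + ‖z - w‖ / ‖1 - (starRingEnd ℂ) w * z‖) / (1 - ‖z - w‖ / ‖1 - (starRingEnd ℂ) w * z‖))

/-- The Denjoy-Wolff set of a sequence `F` of inner functions: the points `ζ` of the unit circle
where all `F n` have radial limits, whose distances to `F n 0` tend to zero. -/
def denjoyWolffSet (F : ℕ → ℂ → ℂ) : Set ℂ :=
  {ζ | ‖ζ‖ = 1 ∧ ∃ w : ℕ → ℂ, (∀ n, HasRadialLimit (F n) ζ (w n)) ∧
    Tendsto (fun n => ‖w n - F n 0‖) atTop (𝓝 0)}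

end Pool.Agent.X183.Inner
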