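import Pool.Agent.X183.Inner.Defs

/-!
# A contracting forward composition with divergent series and full Denjoy-Wolff set
-/

set_option autoImplicit false

open Filter Topology Metric MeasureTheory Complex

namespace Pool.Agent.X183.Inner

theorem norm_pt (t : ℝ) : ‖pt t‖ = 1 := by
  have h : (2 * Real.pi * t * Complex.I : ℂ) = ((2 * Real.pi * t : ℝ) : ℂ) * Complex.I := by
    push_cast; ring
  unfold pt
  rw [h]
  exact Complex.norm_exp_ofReal_mul_I _

/-- The Moebius map `z ↦ (z+a)/(1+az)`. -/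
noncomputable def M (a : ℝ) (z : ℂ) : ℂ := (z + a) / (1 + a * z)

theorem den_ne {a : ℝ} (ha : |a| < 1) {z : ℂ} (hz : ‖z‖ ≤ 1) : (1 + a * z : ℂ) ≠ 0 := by
  intro h
  have h1 : (a : ℂ) * z = -1 := by linear_combination h
  have h2 : ‖(a : ℂ) * z‖ = 1 := by rw [h1]; simp
  rw [norm_mul, Complex.norm_real, Real.norm_eq_abs] at h2
  nlinarith [abs_nonneg a, norm_nonneg z]

theorem normSq_identity (a : ℝ) (z : ℂ) :
    ‖(1 + a * z : ℂ)‖ ^ 2 - ‖z + a‖ ^ 2 = (1 - a ^ 2) * (1 - ‖z‖ ^ 2) := by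
  rw [← Complex.normSq_eq_norm_sq, ← Complex.normSq_eq_norm_sq, ← Complex.normSq_eq_norm_sq,
    Complex.normSq_apply, Complex.normSq_apply, Complex.normSq_apply]
  simp
  ring

theorem norm_M_lt {a : ℝ} (ha : |a| < 1) {z : ℂ} (hz : ‖z‖ < 1) : ‖M a z‖ < 1 := by
  unfold M
  have hd := den_ne ha hz.le
  rw [norm_div, div_lt_one (norm_pos_iff.2 hd)]
  have h := normSq_identity a z
  have h1 : 0 < 1 - a ^ 2 := by nlinarith [abs_lt.1 ha]
  have h2 : 0 < 1 - ‖z‖ ^ 2 := by nlinarith [norm_nonneg z]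
  have h3 : 0 < (1 - a ^ 2) * (1 - ‖z‖ ^ 2) := mul_pos h1 h2
  refine lt_of_pow_lt_pow_left₀ 2 (norm_nonneg _) ?_
  linarith

theorem norm_M_eq {a : ℝ} (ha : |a| < 1) {z : ℂ} (hz : ‖z‖ = 1) : ‖M a z‖ = 1 := by
  unfold M
  have hd := den_ne ha hz.le
  rw [norm_div, div_eq_one_iff_eq (norm_ne_zero_iff.2 hd)]
  have h := normSq_identity a z
  rw [hz] at h
  have h1 : ‖z + a‖ ^ 2 = ‖(1 + a * z : ℂ)‖ ^ 2 := by linarith
  exact (pow_left_inj₀ (norm_nonneg _) (norm_nonneg _) (by norm_num)).1 h1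

theorem continuousAt_M {a : ℝ} (ha : |a| < 1) {z : ℂ} (hz : ‖z‖ ≤ 1) : ContinuousAt (M a) z := by
  unfold M
  exact ContinuousAt.div (by fun_prop) (by fun_prop) (den_ne ha hz)

theorem differentiableAt_M {a : ℝ} (ha : |a| < 1) {z : ℂ} (hz : ‖z‖ ≤ 1) :
    DifferentiableAt ℂ (M a) z := by
  unfold M
  exact DifferentiableAt.div (by fun_prop) (by fun_prop) (den_ne ha hz)

theorem M_neg_M {a : ℝ} (ha : |a| < 1) {z : ℂ} (hz : ‖z‖ ≤ 1) : M (-a) (M a z) = z := by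
  unfold M
  have hd := den_ne ha hz
  have h1 : ((1 : ℂ) - a ^ 2) ≠ 0 := by
    have : (1 - a ^ 2 : ℝ) ≠ 0 := by nlinarith [abs_lt.1 ha]
    exact_mod_cast this
  have e1 : (z + a) / (1 + a * z) + ((-a : ℝ) : ℂ) = z * (1 - a ^ 2) / (1 + a * z) := by
    rw [eq_div_iff hd, add_mul, div_mul_cancel₀ _ hd]; push_cast; ring
  have e2 : 1 + ((-a : ℝ) : ℂ) * ((z + a) / (1 + a * z)) = (1 - a ^ 2) / (1 + a * z) := by
    rw [eq_div_iff hd, add_mul, mul_assoc, div_mul_cancel₀ _ hd]; push_cast; ring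
  rw [e1, e2, div_div_div_cancel_right₀ hd, mul_div_assoc, div_self h1, mul_one]

/-- The numbers `1 - 1/(n+1)`. -/
noncomputable def a (n : ℕ) : ℝ := n / (n + 1)

theorem a_nonneg (n : ℕ) : 0 ≤ a n := by unfold a; positivity

theorem one_sub_a (n : ℕ) : 1 - a n = 1 / (n + 1) := by
  unfold a; field_simp; ring

theorem a_lt (n : ℕ) : |a n| < 1 := by
  rw [abs_of_nonneg (a_nonneg n)]
  have h := one_sub_a n
  have : (0 : ℝ) < 1 / (n + 1) := by positivity
  linarith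

/-- The number of squarings among the first `n` maps. -/
def k (n : ℕ) : ℕ := Nat.log 2 (n + 1)

theorem k_mono (n : ℕ) : k n ≤ k (n + 1) := Nat.log_mono_right (by omega)

/-- The inner functions: `f n = M_{a(n+1)} ∘ (z ↦ z^d) ∘ M_{a(n)}⁻¹` with `d = 1` or `d = 2`. -/
noncomputable def f (n : ℕ) (z : ℂ) : ℂ := M (a (n + 1)) ((M (-a n) z) ^ 2 ^ (k (n + 1) - k n))

theorem F_eq (n : ℕ) {z : ℂ} (hz : ‖z‖ < 1) : forwardComp f n z = M (a n) (z ^ 2 ^ k n) := by
  induction n with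
  | zero => simp [forwardComp, M, a, k]
  | succ n ih =>
    have h1 : forwardComp f (n + 1) z = f n (forwardComp f n z) := rfl
    rw [h1, ih]
    unfold f
    have h2 : ‖z ^ 2 ^ k n‖ ≤ 1 := by
      rw [norm_pow]; exact pow_le_one₀ (norm_nonneg _) hz.le
    rw [M_neg_M (a_lt n) h2, ← pow_mul, ← pow_add]
    congr 3
    have := k_mono n
    omega

theorem f_inner (n : ℕ) : IsInner (f n) := by
  have han : |-a n| < 1 := by rw [abs_neg]; exact a_lt n
  have ha1 := a_lt (n + 1)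
  refine ⟨?_, ?_, ?_⟩
  · intro z hz
    rw [mem_ball_zero_iff] at hz
    have h1 := differentiableAt_M han hz.le
    have h2 : ‖(M (-a n) z) ^ 2 ^ (k (n + 1) - k n)‖ ≤ 1 := by
      rw [norm_pow]; exact pow_le_one₀ (norm_nonneg _) (norm_M_lt han hz).le
    exact ((differentiableAt_M ha1 h2).comp z (h1.pow _)).differentiableWithinAt
  · intro z hz
    rw [mem_ball_zero_iff] at hz ⊢
    refine norm_M_lt ha1 ?_
    rw [norm_pow]
    exact pow_lt_one₀ (norm_nonneg _) (norm_M_lt han hz) (by positivity)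
  · refine Eventually.of_forall fun t => ?_
    refine ⟨f n (pt t), ?_, ?_⟩
    · have hc : ContinuousAt (f n) (pt t) := by
        have h1 := continuousAt_M han (norm_pt t).le
        have h2 : ‖(M (-a n) (pt t)) ^ 2 ^ (k (n + 1) - k n)‖ ≤ 1 := by
          rw [norm_pow, norm_M_eq han (norm_pt t), one_pow]
        exact ContinuousAt.comp (f := fun z => (M (-a n) z) ^ 2 ^ (k (n + 1) - k n))
          (continuousAt_M ha1 h2) (h1.pow _)
      have h3 : Tendsto (fun r : ℝ => (r : ℂ) * pt t) (𝓝[<] 1) (𝓝 (pt t)) := by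
        have : Tendsto (fun r : ℝ => (r : ℂ) * pt t) (𝓝 1) (𝓝 (((1 : ℝ) : ℂ) * pt t)) :=
          (by fun_prop : Continuous fun r : ℝ => (r : ℂ) * pt t).tendsto 1
        rw [Complex.ofReal_one, one_mul] at this
        exact this.mono_left nhdsWithin_le_nhds
      exact hc.tendsto.comp h3
    · unfold f
      refine norm_M_eq ha1 ?_
      rw [norm_pow, norm_M_eq han (norm_pt t), one_pow]

theorem F_zero (n : ℕ) : forwardComp f n 0 = a n := by
  rw [F_eq n (by simp)]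
  have h : (0 : ℂ) ^ 2 ^ k n = 0 := zero_pow (by positivity)
  simp [M, h]

theorem f_ne_id (n : ℕ) : ∃ z ∈ ball (0 : ℂ) 1, f n z ≠ z := by
  refine ⟨a n, ?_, ?_⟩
  · rw [mem_ball_zero_iff, Complex.norm_real, Real.norm_eq_abs]; exact a_lt n
  · rw [← F_zero n]
    have h1 : f n (forwardComp f n 0) = forwardComp f (n + 1) 0 := rfl
    rw [h1, F_zero, F_zero]
    intro h
    have h2 : a (n + 1) = a n := by exact_mod_cast h
    have h3 := one_sub_a n
    have h4 := one_sub_a (n + 1)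
    have h5 : (1 : ℝ) / ((n + 1 : ℕ) + 1) < 1 / (n + 1) := by
      apply one_div_lt_one_div_of_lt (by positivity)
      push_cast; linarith
    linarith

theorem tendsto_a : Tendsto a atTop (𝓝 1) := by
  have h : Tendsto (fun n : ℕ => 1 - 1 / ((n : ℝ) + 1)) atTop (𝓝 (1 - 0)) :=
    tendsto_const_nhds.sub tendsto_one_div_add_atTop_nhds_zero_nat
  rw [sub_zero] at h
  refine h.congr fun n => ?_
  have := one_sub_a n
  linarith

theorem tendsto_k : Tendsto k atTop atTop := by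
  refine tendsto_atTop.2 fun m => ?_
  filter_upwards [eventually_ge_atTop (2 ^ m)] with n hn
  exact Nat.le_log_of_pow_le (by norm_num) (by omega)

theorem tendsto_pow {z : ℂ} (hz : ‖z‖ < 1) : Tendsto (fun n => z ^ 2 ^ k n) atTop (𝓝 0) := by
  have h1 : Tendsto (fun n => 2 ^ k n) atTop atTop :=
    (tendsto_pow_atTop_atTop_of_one_lt (by norm_num)).comp tendsto_k
  exact (tendsto_pow_atTop_nhds_zero_of_norm_lt_one hz).comp h1

theorem tendsto_F {z : ℂ} (hz : ‖z‖ < 1) : Tendsto (fun n => forwardComp f n z) atTop (𝓝 1) := by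
  have h1 : Tendsto (fun n => M (a n) (z ^ 2 ^ k n)) atTop (𝓝 ((0 + ((1 : ℝ) : ℂ)) / (1 + ((1 : ℝ) : ℂ) * 0))) := by
    unfold M
    have ha : Tendsto (fun n => ((a n : ℝ) : ℂ)) atTop (𝓝 ((1 : ℝ) : ℂ)) :=
      (Complex.continuous_ofReal.tendsto 1).comp tendsto_a
    exact Tendsto.div ((tendsto_pow hz).add ha) (tendsto_const_nhds.add (ha.mul (tendsto_pow hz)))
      (by simp)
  simp only [Complex.ofReal_one, zero_add, mul_zero, add_zero, div_one] at h1
  exact h1.congr fun n => (F_eq n hz).symm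

/-- Invariance of the pseudo-hyperbolic distance. -/
theorem rho_M {b : ℝ} (hb : |b| < 1) {z w : ℂ} (hz : ‖z‖ ≤ 1) (hw : ‖w‖ ≤ 1) :
    ‖M b z - M b w‖ / ‖1 - (starRingEnd ℂ) (M b w) * M b z‖ =
      ‖z - w‖ / ‖1 - (starRingEnd ℂ) w * z‖ := by
  have hdz := den_ne hb hz
  have hdw := den_ne hb hw
  have hdw' : (1 + b * (starRingEnd ℂ) w : ℂ) ≠ 0 := by
    refine den_ne hb ?_
    rw [RCLike.norm_conj]; exact hw
  have h1 : ((1 - b ^ 2 : ℝ) : ℂ) ≠ 0 := by
    have : (1 - b ^ 2 : ℝ) ≠ 0 := by nlinarith [abs_lt.1 hb]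
    exact_mod_cast this
  have e1 : M b z - M b w = ((1 - b ^ 2 : ℝ) : ℂ) * (z - w) / ((1 + b * z) * (1 + b * w)) := by
    unfold M
    rw [div_sub_div _ _ hdz hdw]
    congr 1
    push_cast; ring
  have e2 : (starRingEnd ℂ) (M b w) = ((starRingEnd ℂ) w + b) / (1 + b * (starRingEnd ℂ) w) := by
    unfold M; simp
  have e3 : 1 - (starRingEnd ℂ) (M b w) * M b z =
      ((1 - b ^ 2 : ℝ) : ℂ) * (1 - (starRingEnd ℂ) w * z) /
        ((1 + b * z) * (1 + b * (starRingEnd ℂ) w)) := by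
    rw [e2]; unfold M
    rw [eq_div_iff (mul_ne_zero hdz hdw'), sub_mul, div_mul_div_comm]
    rw [show (1 + (b : ℂ) * z) * (1 + b * (starRingEnd ℂ) w) =
      (1 + b * (starRingEnd ℂ) w) * (1 + b * z) by ring]
    rw [div_mul_cancel₀ _ (mul_ne_zero hdw' hdz)]
    push_cast; ring
  have e4 : ‖(1 + b * (starRingEnd ℂ) w : ℂ)‖ = ‖(1 + b * w : ℂ)‖ := by
    rw [← RCLike.norm_conj (1 + b * w : ℂ)]; simp
  rw [e1, e3, norm_div, norm_div, norm_mul, norm_mul, norm_mul, norm_mul, e4]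
  have n1 : ‖((1 - b ^ 2 : ℝ) : ℂ)‖ ≠ 0 := norm_ne_zero_iff.2 h1
  have n2 : ‖(1 + b * z : ℂ)‖ ≠ 0 := norm_ne_zero_iff.2 hdz
  have n3 : ‖(1 + b * w : ℂ)‖ ≠ 0 := norm_ne_zero_iff.2 hdw
  rw [div_div_div_cancel_right₀ (mul_ne_zero n2 n3), mul_div_mul_left _ _ n1]

theorem contracting {z w : ℂ} (hz : ‖z‖ < 1) (hw : ‖w‖ < 1) :
    Tendsto (fun n => hypDist (forwardComp f n z) (forwardComp f n w)) atTop (𝓝 0) := by
  have hρ : Tendsto (fun n => ‖z ^ 2 ^ k n - w ^ 2 ^ k n‖ /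
      ‖1 - (starRingEnd ℂ) (w ^ 2 ^ k n) * z ^ 2 ^ k n‖) atTop (𝓝 (‖(0 : ℂ) - 0‖ /
      ‖(1 : ℂ) - (starRingEnd ℂ) 0 * 0‖)) := by
    have hz' := tendsto_pow hz
    have hw' := tendsto_pow hw
    have hc : Tendsto (fun n => (starRingEnd ℂ) (w ^ 2 ^ k n)) atTop (𝓝 ((starRingEnd ℂ) 0)) :=
      (Complex.continuous_conj.tendsto 0).comp hw'
    exact Tendsto.div (hz'.sub hw').norm (tendsto_const_nhds.sub (hc.mul hz')).norm (by simp)
  have h0 : ‖(0 : ℂ) - 0‖ / ‖(1 : ℂ) - (starRingEnd ℂ) 0 * 0‖ = 0 := by simp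
  rw [h0] at hρ
  have hlog : Tendsto (fun x : ℝ => Real.log ((1 + x) / (1 - x))) (𝓝 0) (𝓝 0) := by
    have : ContinuousAt (fun x : ℝ => Real.log ((1 + x) / (1 - x))) 0 := by
      refine ContinuousAt.log (ContinuousAt.div (by fun_prop) (by fun_prop) (by norm_num))
        (by norm_num)
    have h := this.tendsto
    simpa using h
  refine (hlog.comp hρ).congr fun n => ?_
  have hzn : ‖z ^ 2 ^ k n‖ ≤ 1 := by rw [norm_pow]; exact pow_le_one₀ (norm_nonneg _) hz.le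
  have hwn : ‖w ^ 2 ^ k n‖ ≤ 1 := by rw [norm_pow]; exact pow_le_one₀ (norm_nonneg _) hw.le
  simp only [Function.comp, hypDist]
  rw [F_eq n hz, F_eq n hw, rho_M (a_lt n) hzn hwn]

/-! ### Boundary behaviour -/

/-- The bad sets. -/
def Bad (m : ℤ) (j : ℕ) : Set ℝ :=
  {t | t ∈ Set.Ioc (m : ℝ) (m + 1) ∧ ‖1 + pt t ^ 2 ^ j‖ < 2 * (3 / 4) ^ j}

theorem pt_pow (t : ℝ) (n : ℕ) : pt t ^ n = pt (n * t) := by
  unfold pt
  rw [← Complex.exp_nat_mul]
  congr 1
  push_cast; ring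

/-- `|1 + e^{2πis}| ≥ 4 |s - (l + 1/2)|` for `s` in `[l, l+1]`. -/
theorem norm_one_add_pt {s : ℝ} {l : ℤ} (h1 : (l : ℝ) ≤ s) (h2 : s ≤ l + 1) :
    4 * |s - (l + 1 / 2)| ≤ ‖1 + pt s‖ := by
  have hn : ‖1 + pt s‖ ^ 2 = (2 * Real.cos (Real.pi * (s - l))) ^ 2 := by
    have hpt : pt s = pt (s - l) := by
      unfold pt
      rw [Complex.exp_eq_exp_iff_exists_int]
      exact ⟨l, by push_cast; ring⟩
    rw [hpt]
    have h3 : (2 * Real.pi * ((s - l : ℝ) : ℂ) * Complex.I) =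
        ((2 * (Real.pi * (s - l)) : ℝ) : ℂ) * Complex.I := by push_cast; ring
    unfold pt
    rw [h3, ← Complex.normSq_eq_norm_sq, Complex.normSq_apply]
    simp only [Complex.add_re, Complex.one_re, Complex.exp_ofReal_mul_I_re, Complex.add_im,
      Complex.one_im, Complex.exp_ofReal_mul_I_im]
    rw [Real.cos_two_mul, Real.sin_two_mul]
    nlinarith [Real.sin_sq_add_cos_sq (Real.pi * (s - l))]
  have hcos : 2 * |s - l - 1 / 2| ≤ |Real.cos (Real.pi * (s - l))| := by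
    set u := s - l with hu
    have hu0 : 0 ≤ u := by linarith
    have hu1 : u ≤ 1 := by linarith
    have hpi := Real.pi_pos
    rcases le_total u (1 / 2) with h | h
    · have h4 := Real.one_sub_mul_le_cos (x := Real.pi * u) (by positivity)
        (by nlinarith)
      have h5 : 1 - 2 / Real.pi * (Real.pi * u) = 1 - 2 * u := by field_simp
      rw [h5] at h4
      rw [abs_of_nonpos (by linarith : u - 1 / 2 ≤ 0)]
      exact le_trans (by linarith) (le_abs_self _)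
    · have h4 := Real.one_sub_mul_le_cos (x := Real.pi * (1 - u))
        (by nlinarith) (by nlinarith)
      have h5 : 1 - 2 / Real.pi * (Real.pi * (1 - u)) = 2 * u - 1 := by field_simp; ring
      rw [h5] at h4
      have h6 : Real.cos (Real.pi * (1 - u)) = -Real.cos (Real.pi * u) := by
        rw [show Real.pi * (1 - u) = Real.pi - Real.pi * u by ring, Real.cos_pi_sub]
      rw [h6] at h4
      rw [abs_of_nonneg (by linarith : 0 ≤ u - 1 / 2)]
      exact le_trans (by linarith) (neg_le_abs _)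
  have h7 : ‖1 + pt s‖ = 2 * |Real.cos (Real.pi * (s - l))| := by
    rw [← abs_of_nonneg (norm_nonneg (1 + pt s)), ← abs_two, ← abs_mul]
    exact (sq_eq_sq_iff_abs_eq_abs _ _).1 hn
  rw [h7, show s - (l + 1 / 2) = s - l - 1 / 2 by ring]
  linarith

theorem bad_volume (m : ℤ) (j : ℕ) : volume (Bad m j) ≤ ENNReal.ofReal ((3 / 4) ^ j) := by
  set N : ℕ := 2 ^ j with hN
  have hNpos : (0 : ℝ) < N := by rw [hN]; positivity
  set δ : ℝ := (3 / 4) ^ j with hδ
  have hδ0 : 0 < δ := by positivity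
  have hsub : Bad m j ⊆ ⋃ l ∈ Finset.Ico (N * m : ℤ) (N * m + N),
      Metric.ball (((l : ℝ) + 1 / 2) / N) (δ / (2 * N)) := by
    rintro t ⟨⟨ht1, ht2⟩, ht3⟩
    rw [pt_pow] at ht3
    change ‖1 + pt ((N : ℕ) * t)‖ < 2 * δ at ht3
    -- choose l
    have hs1 : (N : ℝ) * m < N * t := by nlinarith
    have hs2 : (N : ℝ) * t ≤ N * m + N := by nlinarith
    set l : ℤ := ⌈(N : ℝ) * t⌉ - 1 with hl
    have hl1 : (l : ℝ) < N * t := by
      rw [hl]; push_cast; linarith [Int.ceil_lt_add_one ((N : ℝ) * t)]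
    have hl2 : (N : ℝ) * t ≤ l + 1 := by
      rw [hl]; push_cast; linarith [Int.le_ceil ((N : ℝ) * t)]
    have hmem : l ∈ Finset.Ico (N * m : ℤ) (N * m + N) := by
      rw [Finset.mem_Ico]
      constructor
      · have h1 : ((N * m : ℤ) : ℝ) < (l : ℝ) + 1 := by
          refine lt_of_lt_of_le ?_ hl2
          exact_mod_cast hs1
        have h2 : (N * m : ℤ) < l + 1 := by exact_mod_cast h1
        omega
      · have h1 : (l : ℝ) < ((N * m + N : ℤ) : ℝ) := by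
          refine lt_of_lt_of_le hl1 ?_
          exact_mod_cast hs2
        exact_mod_cast h1
    refine Set.mem_biUnion hmem ?_
    have h3 := norm_one_add_pt hl1.le hl2
    have h4 : 4 * |(N : ℝ) * t - (l + 1 / 2)| < 2 * δ := lt_of_le_of_lt h3 ht3
    rw [Metric.mem_ball, Real.dist_eq]
    have h5 : t - ((l : ℝ) + 1 / 2) / N = ((N : ℝ) * t - (l + 1 / 2)) / N := by
      field_simp
    rw [h5, abs_div, abs_of_pos hNpos, div_lt_div_iff₀ hNpos (by positivity)]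
    nlinarith
  calc volume (Bad m j) ≤ volume (⋃ l ∈ Finset.Ico (N * m : ℤ) (N * m + N),
      Metric.ball (((l : ℝ) + 1 / 2) / N) (δ / (2 * N))) := measure_mono hsub
    _ ≤ ∑ l ∈ Finset.Ico (N * m : ℤ) (N * m + N),
        volume (Metric.ball (((l : ℝ) + 1 / 2) / N) (δ / (2 * N))) :=
        measure_biUnion_finset_le _ _
    _ = ∑ l ∈ Finset.Ico (N * m : ℤ) (N * m + N), ENNReal.ofReal (2 * (δ / (2 * N))) := by
        simp only [Real.volume_ball]
    _ = ENNReal.ofReal δ := by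
        rw [Finset.sum_const, Int.card_Ico, show (N * m + N - N * m : ℤ) = (N : ℤ) by ring,
          Int.toNat_natCast, nsmul_eq_mul, ← ENNReal.ofReal_natCast N,
          ← ENNReal.ofReal_mul hNpos.le]
        congr 1
        field_simp

theorem ae_good : ∀ᵐ t : ℝ, ∀ᶠ j : ℕ in atTop, 2 * (3 / 4 : ℝ) ^ j ≤ ‖1 + pt t ^ 2 ^ j‖ := by
  have h1 : ∀ m : ℤ, ∀ᵐ t : ℝ, ∀ᶠ j : ℕ in atTop, t ∉ Bad m j := by
    intro m
    refine ae_eventually_notMem ?_
    refine ne_of_lt (lt_of_le_of_lt (ENNReal.tsum_le_tsum (bad_volume m)) ?_)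
    rw [← ENNReal.ofReal_tsum_of_nonneg (fun j => by positivity)
      (summable_geometric_of_lt_one (by norm_num) (by norm_num))]
    exact ENNReal.ofReal_lt_top
  have h2 : ∀ᵐ t : ℝ, ∀ m : ℤ, ∀ᶠ j : ℕ in atTop, t ∉ Bad m j := ae_all_iff.2 h1
  filter_upwards [h2] with t ht
  have hmem : t ∈ Set.Ioc (((⌈t⌉ - 1 : ℤ)) : ℝ) (((⌈t⌉ - 1 : ℤ) : ℝ) + 1) := by
    constructor
    · push_cast; linarith [Int.ceil_lt_add_one t]
    · push_cast; linarith [Int.le_ceil t]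
  filter_upwards [ht (⌈t⌉ - 1)] with j hj
  by_contra hcon
  push Not at hcon
  exact hj ⟨hmem, hcon⟩

theorem F_radial (n : ℕ) (t : ℝ) :
    HasRadialLimit (forwardComp f n) (pt t) (M (a n) (pt t ^ 2 ^ k n)) := by
  unfold HasRadialLimit
  have hc : ContinuousAt (fun z => M (a n) (z ^ 2 ^ k n)) (pt t) := by
    have h2 : ‖pt t ^ 2 ^ k n‖ ≤ 1 := by rw [norm_pow, norm_pt, one_pow]
    exact ContinuousAt.comp (f := fun z : ℂ => z ^ 2 ^ k n) (continuousAt_M (a_lt n) h2)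
      (by fun_prop)
  have h3 : Tendsto (fun r : ℝ => (r : ℂ) * pt t) (𝓝[<] 1) (𝓝 (pt t)) := by
    have : Tendsto (fun r : ℝ => (r : ℂ) * pt t) (𝓝 1) (𝓝 (((1 : ℝ) : ℂ) * pt t)) :=
      (by fun_prop : Continuous fun r : ℝ => (r : ℂ) * pt t).tendsto 1
    rw [Complex.ofReal_one, one_mul] at this
    exact this.mono_left nhdsWithin_le_nhds
  refine (hc.tendsto.comp h3).congr' ?_
  have h4 : Set.Ioo (-1 : ℝ) 1 ∈ 𝓝[<] (1 : ℝ) := Ioo_mem_nhdsLT (by norm_num)
  filter_upwards [h4] with r hr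
  refine (F_eq n ?_).symm
  rw [norm_mul, norm_pt, mul_one, Complex.norm_real, Real.norm_eq_abs]
  exact abs_lt.2 hr

theorem dw_full : ∀ᵐ t : ℝ, pt t ∈ denjoyWolffSet (forwardComp f) := by
  filter_upwards [ae_good] with t ht
  refine ⟨norm_pt t, fun n => M (a n) (pt t ^ 2 ^ k n), fun n => F_radial n t, ?_⟩
  have h1 : ∀ᶠ n in atTop, ‖M (a n) (pt t ^ 2 ^ k n) - forwardComp f n 0‖ ≤
      2 * (2 / 3 : ℝ) ^ k n + (1 - a n) := by
    filter_upwards [tendsto_k.eventually ht] with n hn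
    set ξ := pt t ^ 2 ^ k n with hξ
    have hξ1 : ‖ξ‖ = 1 := by rw [hξ, norm_pow, norm_pt, one_pow]
    have hd := den_ne (a_lt n) hξ1.le
    have hkn : 1 - a n ≤ (1 / 2 : ℝ) ^ k n := by
      rw [one_sub_a, one_div_pow]
      apply one_div_le_one_div_of_le (by positivity)
      have : 2 ^ k n ≤ n + 1 := Nat.pow_log_le_self 2 (by omega)
      exact_mod_cast this
    have hpow : (1 / 2 : ℝ) ^ k n ≤ (3 / 4) ^ k n :=
      pow_le_pow_left₀ (by norm_num) (by norm_num) _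
    have hden : (3 / 4 : ℝ) ^ k n ≤ ‖(1 + a n * ξ : ℂ)‖ := by
      have e : (1 + a n * ξ : ℂ) = (1 + ξ) - ((1 - a n : ℝ) : ℂ) * ξ := by push_cast; ring
      have h2 : ‖(1 + ξ) - ((1 - a n : ℝ) : ℂ) * ξ‖ ≥ ‖1 + ξ‖ - ‖((1 - a n : ℝ) : ℂ) * ξ‖ :=
        norm_sub_norm_le _ _
      rw [norm_mul, hξ1, mul_one, Complex.norm_real, Real.norm_eq_abs,
        abs_of_nonneg (by linarith [abs_lt.1 (a_lt n)])] at h2
      rw [e]
      linarith
    have e1 : M (a n) ξ - 1 = ((1 - a n : ℝ) : ℂ) * (ξ - 1) / (1 + a n * ξ) := by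
      unfold M
      rw [eq_div_iff hd, sub_mul, div_mul_cancel₀ _ hd]
      push_cast; ring
    have e2 : ‖M (a n) ξ - 1‖ ≤ 2 * (2 / 3 : ℝ) ^ k n := by
      rw [e1, norm_div, norm_mul, Complex.norm_real, Real.norm_eq_abs,
        abs_of_nonneg (by linarith [abs_lt.1 (a_lt n)]),
        div_le_iff₀ (norm_pos_iff.2 hd)]
      have h3 : ‖ξ - 1‖ ≤ 2 := by
        calc ‖ξ - 1‖ ≤ ‖ξ‖ + ‖(1 : ℂ)‖ := norm_sub_le _ _
          _ = 2 := by rw [hξ1, norm_one]; norm_num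
      calc (1 - a n) * ‖ξ - 1‖ ≤ (1 / 2 : ℝ) ^ k n * 2 := by
            apply mul_le_mul hkn h3 (norm_nonneg _) (by positivity)
        _ = 2 * ((2 / 3 : ℝ) ^ k n * (3 / 4 : ℝ) ^ k n) := by
            rw [← mul_pow]; norm_num; ring
        _ ≤ 2 * (2 / 3 : ℝ) ^ k n * ‖(1 + a n * ξ : ℂ)‖ := by
            rw [mul_assoc]
            gcongr
    rw [F_zero]
    calc ‖M (a n) ξ - (a n : ℂ)‖ = ‖(M (a n) ξ - 1) + ((1 - a n : ℝ) : ℂ)‖ := by
          congr 1; push_cast; ring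
      _ ≤ ‖M (a n) ξ - 1‖ + ‖((1 - a n : ℝ) : ℂ)‖ := norm_add_le _ _
      _ ≤ _ := by
          rw [Complex.norm_real, Real.norm_eq_abs,
            abs_of_nonneg (by linarith [abs_lt.1 (a_lt n)])]
          linarith
  have h2 : Tendsto (fun n => 2 * (2 / 3 : ℝ) ^ k n + (1 - a n)) atTop (𝓝 (2 * 0 + (1 - 1))) := by
    refine Tendsto.add (Tendsto.const_mul _ ?_) (tendsto_const_nhds.sub tendsto_a)
    exact (tendsto_pow_atTop_nhds_zero_of_lt_one (by norm_num) (by norm_num)).comp tendsto_k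
  simp only [mul_zero, sub_self, add_zero] at h2
  exact tendsto_of_tendsto_of_tendsto_of_le_of_le' tendsto_const_nhds h2
    (Eventually.of_forall fun n => norm_nonneg _) h1

theorem not_summable : ¬ Summable (fun n => 1 - ‖forwardComp f n 0‖) := by
  have h : (fun n => 1 - ‖forwardComp f n 0‖) = fun n : ℕ => 1 / ((n : ℝ) + 1) := by
    funext n
    rw [F_zero, Complex.norm_real, Real.norm_eq_abs, abs_of_nonneg (a_nonneg n), one_sub_a]
  rw [h]
  intro hs
  have h2 : Summable (fun n : ℕ => 1 / ((n + 1 : ℕ) : ℝ)) := by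
    refine hs.congr fun n => ?_
    push_cast; rfl
  exact Real.not_summable_one_div_natCast ((summable_nat_add_iff 1).1 h2)

end Pool.Agent.X183.Inner
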